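import Pool.Agent.Helper77.OF4.St

/-!
# MP_7a9ddc_co, project OF4, module EX: existence of `W`
-/

set_option autoImplicit false

namespace Pool.Agent.Helper47.OF4.EX

open Equiv Equiv.Perm Pool.Agent.Helper35.PM Pool.Agent.Helper77.HY Pool.Agent.Helper77.OF4

theorem main (hFo : StFo) (hFc : StFc) (hFt : StFt) (hLi : StLi) (hFj : StFj) (hKz : StKz) (hBa : StBa)
    (hSv : StSv) : StEx := by
  intro n
  induction n with
  | zero =>
    intro V D _ _ _ M hn _ _ _
    have := Nat.card_pos (α := V)
    omega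
  | succ n ih =>
    intro V D _ _ _ M hn hC hOG hO
    classical
    by_cases hUF : UF M
    · have hFI := hFj V D M hOG hUF
      have hper := hKz V D M hOG hUF hFI
      obtain ⟨O, hO⟩ := hO
      rcases hBa V D M O hC hOG hFI hper hO with ⟨p, hp⟩ | ⟨g, hg, hall⟩
      · refine ⟨{p}, ?_, hSv V D M 4 p ⟨O, hO⟩ hp⟩
        intro d hd hd'
        rw [Set.mem_singleton_iff] at hd hd'
        exact hOG.1 d (hd'.trans hd.symm)
      · have hfo := hFo V D M g hg 4 hOG
        have hφg : M.φ g ≠ g := by
          intro h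
          have h1 := t_φ M g
          rw [h] at h1
          exact hOG.1 g h1.symm
        have hφφ : M.φ (M.φ g) ≠ g := by
          intro h
          rw [h] at hg
          exact hg rfl
        have hφφ' : M.φ (M.φ g) ≠ M.φ g := fun h => hφg (M.φ.injective h)
        have hodd : ∀ d, Odd (Function.minimalPeriod (fold M g hg).φ d) →
            ∃ e, (fold M g hg).φ.SameCycle d e ∧
              (fold M g hg).t e = pr (M.t g) (M.t (M.φ (M.φ g))) hg (M.t g) := by
          intro d hd
          obtain ⟨h1, h2, h3⟩ := hfo.2.1 d hd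
          obtain ⟨e, he1, he2⟩ := hall d h3
          have key : ∃ e', e' ≠ g ∧ e' ≠ M.φ g ∧ M.φ.SameCycle d e' ∧
              (M.t e' = M.t g ∨ M.t e' = M.t (M.φ (M.φ g))) := by
            by_cases hg1 : e = g
            · refine ⟨M.φ (M.φ g), hφφ, hφφ', ?_, Or.inr rfl⟩
              rw [hg1] at he1
              exact sameCycle_apply_right.2 (sameCycle_apply_right.2 he1)
            · by_cases hg2 : e = M.φ g
              · refine ⟨M.φ (M.φ g), hφφ, hφφ', ?_, Or.inr rfl⟩
                rw [hg2] at he1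
                exact sameCycle_apply_right.2 he1
              · exact ⟨e, hg1, hg2, he1, he2⟩
          obtain ⟨e', h4, h5, h6, h7⟩ := key
          refine ⟨e', hfo.2.2 d e' h1 h2 h4 h5 h6, ?_⟩
          rw [fold_t, pr_iff]
          exact Or.inr ⟨h7, Or.inl rfl⟩
        have hcl := hSv {v : V // v ≠ M.t (M.φ (M.φ g))} D (fold M g hg) 4
          (pr (M.t g) (M.t (M.φ (M.φ g))) hg (M.t g)) (hfo.1 ⟨O, hO⟩) hodd
        refine ⟨_, ?_, hLi V D M g hg 4 _ hC hcl⟩
        intro d hd hd'
        rw [Set.mem_preimage, Set.mem_singleton_iff, pr_iff] at hd hd'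
        have e1 : M.t d = M.t g ∨ M.t d = M.t (M.φ (M.φ g)) := by
          rcases hd with h | h
          · exact Or.inl h
          · exact h.1
        have e2 : M.t (M.ι d) = M.t g ∨ M.t (M.ι d) = M.t (M.φ (M.φ g)) := by
          rcases hd' with h | h
          · exact Or.inl h
          · exact h.1
        have t1 : M.t (M.ι g) = M.t (M.φ g) := (t_φ M g).symm
        have t2 : M.t (M.ι (M.φ g)) = M.t (M.φ (M.φ g)) := (t_φ M (M.φ g)).symm
        rcases e1 with e1 | e1 <;> rcases e2 with e2 | e2
        · exact hOG.1 d (e2.trans e1.symm)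
        · refine hOG.2 g (M.φ g) (M.ι d) t1 (t2.trans e2.symm) ?_
          rw [M.inv]
          exact e1
        · exact hOG.2 g (M.φ g) d t1 (t2.trans e1.symm) e2
        · exact hOG.1 d (e2.trans e1.symm)
    · unfold UF at hUF
      push Not at hUF
      obtain ⟨d, h, hW⟩ := hUF
      have hcard : Nat.card {v : V // v ≠ M.t (M.φ (M.φ d))} < Nat.card V :=
        Finite.card_subtype_lt (p := fun v : V => v ≠ M.t (M.φ (M.φ d))) (x := M.t (M.φ (M.φ d)))
          (fun hx => hx rfl)
      have : Nonempty {v : V // v ≠ M.t (M.φ (M.φ d))} := ⟨⟨M.t d, h⟩⟩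
      obtain ⟨W1, hW1, hcl⟩ := ih {v : V // v ≠ M.t (M.φ (M.φ d))} D (fold M d h) (by omega)
        (hFc V D M d h hC) (hFt V D M d h hOG hW) ((hFo V D M d h 4 hOG).1 hO)
      exact ⟨_, fun e he he' => hW1 e he he', hLi V D M d h 4 W1 hC hcl⟩

end Pool.Agent.Helper47.OF4.EX
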